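import Mathlib

open MeasureTheory Filter Set Metric Topology

namespace Pool.Agent.Helper13.SqGap

/-- Sampling, category version. -/
theorem sampling_category (c : ℝ) (f : ℕ → ℝ → ℝ) (hf : ∀ n, ContinuousOn (f n) (Ioi c))
    (H : ∀ A B : ℝ, c < A → A < B → ∀ N : ℕ, ∃ T : ℝ, ∀ t, T ≤ t → ∃ n, N ≤ n ∧
      ∃ x ∈ Ioo A B, f n x = t)
    (U : Set ℝ) (hU : ∀ T : ℝ, ∃ a, T ≤ a ∧ ∃ b, a < b ∧ Ioo a b ⊆ U) :
    ∀ᶠ x : ℝ in residual ℝ, c < x → ∃ᶠ n in atTop, f n x ∈ U := by
  have key : ∀ N : ℕ, ∀ᶠ x : ℝ in residual ℝ, c < x → ∃ n, N ≤ n ∧ f n x ∈ U := by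
    intro N
    set V : Set ℝ := Iio c ∪ ⋃ n ∈ {n : ℕ | N ≤ n}, (Ioi c ∩ f n ⁻¹' (interior U)) with hV
    have hVo : IsOpen V := by
      refine isOpen_Iio.union (isOpen_biUnion fun n _ => ?_)
      exact (hf n).isOpen_inter_preimage isOpen_Ioi isOpen_interior
    have hVd : Dense V := by
      rw [dense_iff_inter_open]
      intro W hW hWne
      obtain ⟨w, hw⟩ := hWne
      rcases lt_or_ge w c with h | h
      · exact ⟨w, hw, Or.inl h⟩
      · obtain ⟨ε, hε, hball⟩ := Metric.isOpen_iff.mp hW w hw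
        have hsub : Ioo (w + ε / 4) (w + ε / 2) ⊆ W := by
          intro y hy
          apply hball
          rw [Metric.mem_ball, Real.dist_eq, abs_lt]
          constructor
          · linarith [hy.1]
          · linarith [hy.2]
        obtain ⟨T, hT⟩ := H (w + ε / 4) (w + ε / 2) (by linarith) (by linarith) N
        obtain ⟨a, haT, b, hab, hI⟩ := hU T
        obtain ⟨n, hn, x, hx, hfx⟩ := hT ((a + b) / 2) (by linarith)
        refine ⟨x, hsub hx, Or.inr ?_⟩
        simp only [mem_iUnion]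
        refine ⟨n, hn, ?_, ?_⟩
        · have := hx.1
          show c < x
          linarith
        · show f n x ∈ interior U
          rw [hfx]
          refine interior_mono hI ?_
          rw [isOpen_Ioo.interior_eq]
          constructor <;> linarith
    have hres : V ∈ residual ℝ := residual_of_dense_open hVo hVd
    filter_upwards [hres] with x hx hcx
    rcases hx with hx | hx
    · exact absurd hx (not_lt.mpr (le_of_lt hcx))
    · simp only [mem_iUnion] at hx
      obtain ⟨n, hn, -, h2⟩ := hx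
      exact ⟨n, hn, interior_subset h2⟩
  have key2 := (eventually_countable_forall (l := residual ℝ)).mpr key
  filter_upwards [key2] with x hx hx0
  rw [frequently_atTop]
  intro N
  obtain ⟨n, h1, h2⟩ := hx N hx0
  exact ⟨n, h1, h2⟩

/-- sequences with ratio at most `1 + o(1)`: `x * L n` reaches every large value. -/
theorem seq_reach (L : ℕ → ℝ) (hL : Tendsto L atTop atTop)
    (hr : ∀ c : ℝ, 1 < c → ∀ᶠ n in atTop, L (n + 1) / L n < c)
    (A B : ℝ) (hA : 0 < A) (hAB : A < B)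
    (N : ℕ) : ∃ T : ℝ, ∀ t, T ≤ t → ∃ n : ℕ, N ≤ n ∧ ∃ x ∈ Ioo A B, x * L n = t := by
  have hB : 0 < B := hA.trans hAB
  have h1 : 1 < B / A := (one_lt_div hA).mpr hAB
  have hev : ∀ᶠ n in atTop, L (n + 1) / L n < B / A ∧ 0 < L n :=
    (hr _ h1).and (hL.eventually_gt_atTop 0)
  obtain ⟨M, hM⟩ := eventually_atTop.mp hev
  set K := max N M with hK
  have hLK : 0 < L K := (hM K (le_max_right _ _)).2
  refine ⟨B * L K, fun t ht => ?_⟩
  have ht0 : 0 < t := lt_of_lt_of_le (by positivity) ht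
  have hex : ∃ n, K ≤ n ∧ t / B < L n := by
    obtain ⟨n, h2, h3⟩ := ((hL.eventually_gt_atTop (t / B)).and (eventually_ge_atTop K)).exists
    exact ⟨n, h3, h2⟩
  classical
  set n := Nat.find hex with hn
  obtain ⟨hKn, hna⟩ := Nat.find_spec hex
  rw [← hn] at hKn hna
  have hKt : L K ≤ t / B := by
    rw [le_div_iff₀ hB]; linarith [mul_comm B (L K)]
  have hne : K ≠ n := by
    intro h
    rw [← h] at hna
    linarith
  have hlt : K < n := lt_of_le_of_ne hKn hne
  have hpred : L (n - 1) ≤ t / B := by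
    by_contra hcon
    have hlt' : n - 1 < n := by omega
    exact Nat.find_min hex (hn ▸ hlt') ⟨by omega, not_le.mp hcon⟩
  have hMn : M ≤ n - 1 := by
    have := le_max_right N M
    omega
  obtain ⟨h4, h5⟩ := hM (n - 1) hMn
  rw [show n - 1 + 1 = n by omega, div_lt_iff₀ h5] at h4
  have hLn : 0 < L n := lt_trans (by positivity) hna
  have h6 : L n < t / A := by
    calc L n < B / A * L (n - 1) := h4
      _ ≤ B / A * (t / B) := mul_le_mul_of_nonneg_left hpred (by positivity)
      _ = t / A := by field_simp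
  refine ⟨n, (le_max_left _ _).trans hKn, t / L n, ⟨?_, ?_⟩, by field_simp⟩
  · rw [lt_div_iff₀ hLn]
    rw [lt_div_iff₀ hA] at h6
    linarith [mul_comm A (L n)]
  · rw [div_lt_iff₀ hLn]
    rw [div_lt_iff₀ hB] at hna
    linarith [mul_comm B (L n)]

/-- exponentials: `x ^ n` reaches every large value. -/
theorem exp_reach (A B : ℝ) (hA : 1 < A) (hAB : A < B) (N : ℕ) :
    ∃ T : ℝ, ∀ t, T ≤ t → ∃ n : ℕ, N ≤ n ∧ ∃ x ∈ Ioo A B, x ^ n = t := by
  have hA0 : 0 < A := by linarith
  have hB1 : 1 < B := hA.trans hAB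
  have hB0 : 0 < B := by linarith
  have hlA : 0 < Real.log A := Real.log_pos hA
  have hlAB : Real.log A < Real.log B := Real.log_lt_log hA0 hAB
  have hlB : 0 < Real.log B := hlA.trans hlAB
  set α : ℝ := (Real.log A)⁻¹ with hα
  set β : ℝ := (Real.log B)⁻¹ with hβ
  have hβ0 : 0 < β := by positivity
  have hαβ : β < α := (inv_lt_inv₀ hlB hlA).mpr hlAB
  set R : ℝ := max (2 / (α - β)) ((N + 1) / β) with hR
  have hR0 : 0 < R := by
    rw [hR]
    exact lt_max_of_lt_left (by apply div_pos two_pos; linarith)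
  refine ⟨Real.exp R, fun t ht => ?_⟩
  have ht0 : 0 < t := lt_of_lt_of_le (Real.exp_pos _) ht
  set τ : ℝ := Real.log t with hτ
  have hRτ : R ≤ τ := (Real.le_log_iff_exp_le ht0).mpr ht
  have h1 : 2 / (α - β) ≤ τ := (le_max_left _ _).trans hRτ
  have h2 : (N + 1) / β ≤ τ := (le_max_right _ _).trans hRτ
  rw [div_le_iff₀ (by linarith)] at h1
  rw [div_le_iff₀ hβ0] at h2
  set n : ℕ := ⌊τ * β⌋₊ + 1 with hn
  have hτ0 : 0 < τ := lt_of_lt_of_le hR0 hRτ
  have hn1 : τ * β < n := by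
    rw [hn]; push_cast
    exact Nat.lt_floor_add_one _
  have hn2 : (n : ℝ) < τ * α := by
    have : (⌊τ * β⌋₊ : ℝ) ≤ τ * β := Nat.floor_le (by positivity)
    rw [hn]; push_cast
    nlinarith
  have hn0 : (0:ℝ) < n := lt_trans (by positivity) hn1
  have hNn : N ≤ n := by
    have : (N : ℝ) < n := by nlinarith
    exact_mod_cast this.le
  refine ⟨n, hNn, Real.exp (τ / n), ⟨?_, ?_⟩, ?_⟩
  · rw [← Real.log_lt_iff_lt_exp hA0, lt_div_iff₀ hn0]
    calc Real.log A * n < Real.log A * (τ * α) := mul_lt_mul_of_pos_left hn2 hlA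
      _ = τ := by rw [hα]; field_simp
  · rw [← Real.lt_log_iff_exp_lt hB0, div_lt_iff₀ hn0]
    calc τ = Real.log B * (τ * β) := by rw [hβ]; field_simp
      _ < Real.log B * n := mul_lt_mul_of_pos_left hn1 hlB
  · rw [← Real.exp_nat_mul]
    have : (n : ℝ) * (τ / n) = τ := by field_simp
    rw [this, hτ, Real.exp_log ht0]

end Pool.Agent.Helper13.SqGap
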