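import Mathlib

open Filter Topology

namespace Pool.Agent.Helper13.SqGap

/-- The least prime `≥ y`. -/
noncomputable def nextPrime (y : ℝ) : ℕ := sInf {p : ℕ | p.Prime ∧ y ≤ (p : ℝ)}

/-- The distance from `y` to the next prime on the square root scale. -/
noncomputable def rootDist (y : ℝ) : ℝ := √(nextPrime y : ℝ) - √y

/-- `d n = √p_{n+1} - √p_n` (primes counted from `0`). -/
noncomputable def d (n : ℕ) : ℝ := √(Nat.nth Nat.Prime (n + 1) : ℝ) - √(Nat.nth Nat.Prime n : ℝ)

/-- `D = limsup d n`, an element of `[0, ∞]`. -/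
noncomputable def D : ENNReal := limsup (fun n => ENNReal.ofReal (d n)) atTop

/-- The cluster points of `n ↦ rootDist (u n)` are exactly the real numbers in `[0, D]`. -/
def Full (u : ℕ → ℝ) : Prop :=
  ∀ g : ℝ, MapClusterPt g atTop (fun n => rootDist (u n)) ↔ 0 ≤ g ∧ ENNReal.ofReal g ≤ D

/-- The next prime after `u n` is `u n + o(√(u n))`. -/
def Close (u : ℕ → ℝ) : Prop :=
  (fun n => (nextPrime (u n) : ℝ) - u n) =o[atTop] fun n => √(u n)

end Pool.Agent.Helper13.SqGap
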