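import Mathlib

open MeasureTheory Filter Set Metric Topology

namespace Pool.Agent.Helper13.SqGap

/-- Dilation sampling, measure version: a set containing arbitrarily late intervals of a
fixed length is hit infinitely often by `x * μ n` for almost every `x > 0`, if `μ` tends to
infinity with bounded increments. -/
theorem sampling_measure (μ : ℕ → ℝ) (hμ : Tendsto μ atTop atTop) (C : ℝ) (hC : 0 < C)
    (hinc : ∀ n, μ (n + 1) ≤ μ n + C) (U : Set ℝ) (δ : ℝ) (hδ : 0 < δ)
    (hU : ∀ T : ℝ, ∃ a, T ≤ a ∧ Ioo a (a + δ) ⊆ U) :
    ∀ᵐ x : ℝ, 0 < x → ∃ᶠ n in atTop, x * μ n ∈ U := by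
  have key : ∀ N : ℕ, ∀ᵐ x : ℝ, 0 < x → ∃ n, N ≤ n ∧ x * μ n ∈ U := by
    intro N
    set S : Set ℝ := {x | 0 < x ∧ ∀ n, N ≤ n → x * μ n ∉ U} with hS
    have hSz : volume S = 0 := by
      by_contra hne
      have h1 := Besicovitch.ae_tendsto_measure_inter_div (volume : Measure ℝ) S
      have hSpos : ∀ᵐ x ∂(volume.restrict S), x ∈ Ioi (0:ℝ) := by
        have h2 : ∀ᵐ x ∂(volume.restrict (Ioi (0:ℝ))), x ∈ Ioi (0:ℝ) :=
          ae_restrict_mem measurableSet_Ioi
        exact ae_mono (Measure.restrict_mono (fun x hx => hx.1) le_rfl) h2
      have hne' : volume.restrict S ≠ 0 := by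
        intro h0
        exact hne (by simpa using (Measure.restrict_eq_zero.mp h0))
      have hfr : ∃ᶠ x in ae (volume.restrict S), True := by
        have : (ae (volume.restrict S)).NeBot := ae_neBot.mpr hne'
        exact frequently_true_iff_neBot _ |>.mpr this
      obtain ⟨x, -, hx0, hxt⟩ := (hfr.and_eventually (hSpos.and h1)).exists
      have hx0' : (0:ℝ) < x := hx0
      -- the constant
      set κ : ℝ := δ / (4 * (C * x + δ)) with hκ
      have hden : 0 < C * x + δ := by positivity
      have hκ0 : 0 < κ := by positivity
      have hκ1 : κ < 1 := by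
        rw [hκ, div_lt_one (by positivity)]
        nlinarith [mul_pos hC hx0']
      have hev : ∀ᶠ r in 𝓝[>] (0:ℝ),
          ENNReal.ofReal (1 - κ) < volume (S ∩ closedBall x r) / volume (closedBall x r) := by
        have : ENNReal.ofReal (1 - κ) < 1 := by
          rw [ENNReal.ofReal_lt_one]; linarith
        exact hxt.eventually (lt_mem_nhds this)
      obtain ⟨r0, hr0, hr0'⟩ := mem_nhdsGT_iff_exists_Ioo_subset.mp hev
      have hr0pos : (0:ℝ) < r0 := hr0
      -- choose a
      obtain ⟨a, haT, haU⟩ := hU (max (max (C * x) (2 * (x * (C * x + δ)) / r0)) (x * μ N + 1) + 1)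
      have ha1 : C * x + 1 ≤ a := by
        have := le_max_left (max (C * x) (2 * (x * (C * x + δ)) / r0)) (x * μ N + 1)
        have := le_max_left (C * x) (2 * (x * (C * x + δ)) / r0)
        linarith
      have ha2 : 2 * (x * (C * x + δ)) / r0 ≤ a := by
        have := le_max_left (max (C * x) (2 * (x * (C * x + δ)) / r0)) (x * μ N + 1)
        have := le_max_right (C * x) (2 * (x * (C * x + δ)) / r0)
        linarith
      have ha3 : x * μ N < a := by
        have := le_max_right (max (C * x) (2 * (x * (C * x + δ)) / r0)) (x * μ N + 1)
        linarith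
      have hCx : 0 < C * x := by positivity
      have ha0 : 0 < a := by linarith
      -- first index
      have hex : ∃ n, N ≤ n ∧ a / x ≤ μ n := by
        have h3 : ∀ᶠ n in atTop, a / x ≤ μ n := hμ.eventually_ge_atTop _
        obtain ⟨n, hn⟩ := (h3.and (eventually_ge_atTop N)).exists
        exact ⟨n, hn.2, hn.1⟩
      classical
      set n := Nat.find hex with hn
      obtain ⟨hNn, hna⟩ := Nat.find_spec hex
      rw [← hn] at hNn hna
      have hμN : μ N < a / x := by
        rw [lt_div_iff₀ hx0']; linarith [mul_comm x (μ N)]
      have hne2 : N ≠ n := by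
        intro h
        rw [← h] at hna
        linarith
      have hNlt : N < n := lt_of_le_of_ne hNn hne2
      have hpred : μ (n - 1) < a / x := by
        by_contra hcon
        have hlt : n - 1 < n := by omega
        exact Nat.find_min hex (hn ▸ hlt) ⟨by omega, by linarith [not_lt.mp hcon]⟩
      have hμn : μ n < a / x + C := by
        have := hinc (n - 1)
        rw [show n - 1 + 1 = n by omega] at this
        linarith
      have hax : 0 < a / x := by positivity
      have hμpos : 0 < μ n := by linarith
      -- the radius
      set r : ℝ := x * (C * x + δ) / a with hr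
      have hrpos : 0 < r := by positivity
      have hrlt : r < r0 := by
        rw [hr, div_lt_iff₀ ha0]
        rw [div_le_iff₀ hr0pos] at ha2
        nlinarith [mul_pos hx0' hden]
      have hrat := hr0' ⟨hrpos, hrlt⟩
      simp only [Set.mem_ofPred_eq] at hrat
      -- the interval
      set I : Set ℝ := Ioo (a / μ n) ((a + δ) / μ n) with hI
      have hIsub : I ⊆ closedBall x r := by
        intro y hy
        rw [Real.closedBall_eq_Icc]
        have hy1 : a / μ n < y := hy.1
        have hy2 : y < (a + δ) / μ n := hy.2
        constructor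
        · have h4 : x - r ≤ a / μ n := by
            rw [le_div_iff₀ hμpos]
            have h5 : μ n ≤ (a + C * x) / x := by
              rw [le_div_iff₀ hx0']
              have : (a / x + C) * x = a + C * x := by field_simp
              nlinarith
            rcases le_or_gt (x - r) 0 with h6 | h6
            · nlinarith
            · calc (x - r) * μ n ≤ (x - r) * ((a + C * x) / x) :=
                    mul_le_mul_of_nonneg_left h5 h6.le
                _ ≤ a := by
                    rw [← mul_div_assoc, div_le_iff₀ hx0', hr]
                    have h7 : x * (C * x + δ) / a * a = x * (C * x + δ) := by field_simp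
                    have h8 : 0 ≤ x * (C * x + δ) / a * (C * x) := by positivity
                    nlinarith [mul_pos hx0' hδ]
          linarith
        · have h4 : (a + δ) / μ n ≤ x + r := by
            rw [div_le_iff₀ hμpos]
            have h5 : a / x ≤ μ n := hna
            have h6 : (x + r) * (a / x) ≤ (x + r) * μ n :=
              mul_le_mul_of_nonneg_left h5 (by positivity)
            have h7 : (x + r) * (a / x) = a + (C * x + δ) := by
              rw [hr]; field_simp
            linarith
          linarith
      have hIS : Disjoint (S ∩ closedBall x r) I := by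
        rw [Set.disjoint_left]
        rintro y ⟨hyS, -⟩ hyI
        refine hyS.2 n hNn (haU ?_)
        have hy1 : a / μ n < y := hyI.1
        have hy2 : y < (a + δ) / μ n := hyI.2
        rw [div_lt_iff₀ hμpos] at hy1
        rw [lt_div_iff₀ hμpos] at hy2
        exact ⟨hy1, hy2⟩
      have hsum : volume (S ∩ closedBall x r) + volume I ≤ volume (closedBall x r) := by
        rw [← measure_union hIS measurableSet_Ioo]
        exact measure_mono (union_subset inter_subset_right hIsub)
      have hvb : volume (closedBall x r) = ENNReal.ofReal (2 * r) := Real.volume_closedBall _ _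
      have hvI : volume I = ENNReal.ofReal (δ / μ n) := by
        rw [hI, Real.volume_Ioo]
        congr 1
        field_simp
        ring
      have hvb0 : volume (closedBall x r) ≠ 0 := by
        rw [hvb]; simp [hrpos]
      have hvbt : volume (closedBall x r) ≠ ⊤ := by
        rw [hvb]; exact ENNReal.ofReal_ne_top
      rw [ENNReal.lt_div_iff_mul_lt (Or.inl hvb0) (Or.inl hvbt)] at hrat
      have hlt : ENNReal.ofReal (1 - κ) * ENNReal.ofReal (2 * r) + ENNReal.ofReal (δ / μ n)
          < ENNReal.ofReal (2 * r) := by
        rw [hvb] at hrat hsum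
        rw [hvI] at hsum
        refine lt_of_lt_of_le ?_ hsum
        exact ENNReal.add_lt_add_right ENNReal.ofReal_ne_top hrat
      rw [← ENNReal.ofReal_mul (by linarith), ← ENNReal.ofReal_add
        (by have : 0 < 1 - κ := by linarith
            positivity) (by positivity)] at hlt
      rw [ENNReal.ofReal_lt_ofReal_iff (by positivity)] at hlt
      -- δ/μ n ≥ 2 r κ
      have h9 : δ / (a / x + C) ≤ δ / μ n :=
        div_le_div_of_nonneg_left hδ.le hμpos hμn.le
      have h10 : κ * (2 * r) ≤ δ / (a / x + C) := by
        rw [le_div_iff₀ (by positivity)]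
        have h11 : κ * (2 * r) * (a / x + C) = δ * (a + C * x) / (2 * a) := by
          rw [hκ, hr]; field_simp; ring
        rw [h11, div_le_iff₀ (by positivity)]
        nlinarith
      nlinarith
    have : ∀ᵐ x : ℝ, x ∉ S := measure_eq_zero_iff_ae_notMem.mp hSz
    filter_upwards [this] with x hx hx0
    by_contra hcon
    push Not at hcon
    exact hx ⟨hx0, hcon⟩
  rw [← ae_all_iff] at key
  filter_upwards [key] with x hx hx0
  rw [frequently_atTop]
  intro N
  obtain ⟨n, h1, h2⟩ := hx N hx0
  exact ⟨n, h1, h2⟩

end Pool.Agent.Helper13.SqGap
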