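import Pool.Agent.Helper13.SqGap.Primes
import Pool.Agent.Helper13.SqGap.Meas
import Pool.Agent.Helper13.SqGap.Cat

open MeasureTheory Filter Topology Set

namespace Pool.Agent.Helper13.SqGap

theorem tendsto_mul_seq {L : ℕ → ℝ} (hL : Tendsto L atTop atTop) {β : ℝ} (hβ : 0 < β) :
    Tendsto (fun n : ℕ => β * L n) atTop atTop := hL.const_mul_atTop hβ

theorem late_intervals' {q ε : ℝ} (hq : 0 ≤ q) (hqD : ENNReal.ofReal q < D) (hε : 0 < ε) :
    ∀ T : ℝ, ∃ a, T ≤ a ∧ ∃ b, a < b ∧ Ioo a b ⊆ {y | |rootDist y - q| < ε} := by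
  obtain ⟨δ, hδ, h⟩ := late_intervals hq hqD hε
  intro T
  obtain ⟨a, haT, ha0, haU⟩ := h (max T 1)
  have h1 : 1 ≤ a := (le_max_right _ _).trans haT
  have h2 : T ≤ a := (le_max_left _ _).trans haT
  refine ⟨a ^ 2, by nlinarith, (a + δ) ^ 2, by nlinarith, ?_⟩
  rintro y ⟨hy1, hy2⟩
  have hy0 : 0 < y := by nlinarith
  have h3 : a < √y := (Real.lt_sqrt ha0.le).mpr hy1
  have h4 : √y < a + δ := (Real.sqrt_lt' (by linarith)).mpr hy2
  have h5 := haU ⟨h3, h4⟩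
  have h6 : |rootDist ((√y) ^ 2) - q| < ε := h5
  rw [Real.sq_sqrt hy0.le] at h6
  exact h6

theorem metric_x (L : ℕ → ℝ) (hL : Tendsto L atTop atTop)
    (hC : ∃ C : ℝ, ∀ n, √(L (n + 1)) ≤ √(L n) + C) :
    ∀ᵐ x : ℝ, 0 < x → Full (fun n : ℕ => x ^ 2 * L n) := by
  obtain ⟨C, hC⟩ := hC
  have hcount : ∀ q : ℚ, ∀ m : ℕ, ∀ᵐ x : ℝ, 0 ≤ (q : ℝ) → ENNReal.ofReal (q : ℝ) < D → 0 < x →
      ∃ᶠ n : ℕ in atTop, |rootDist (x ^ 2 * L n) - q| < 1 / ((m : ℝ) + 1) := by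
    intro q m
    by_cases h : 0 ≤ (q : ℝ) ∧ ENNReal.ofReal (q : ℝ) < D
    · obtain ⟨hq, hqD⟩ := h
      obtain ⟨δ, hδ, hU⟩ := late_intervals hq hqD (ε := 1 / ((m : ℝ) + 1)) (by positivity)
      have hμ : Tendsto (fun n : ℕ => √(L n)) atTop atTop := Real.tendsto_sqrt_atTop.comp hL
      have h2 := sampling_measure (fun n : ℕ => √(L n)) hμ (max C 1)
        (lt_of_lt_of_le one_pos (le_max_right _ _))
        (fun n => (hC n).trans (by linarith [le_max_left C 1]))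
        {t | |rootDist (t ^ 2) - q| < 1 / ((m : ℝ) + 1)} δ hδ
        (fun T => by
          obtain ⟨a, h1, -, h2⟩ := hU T
          exact ⟨a, h1, h2⟩)
      filter_upwards [h2] with x hx _ _ hx0
      refine ((hx hx0).and_eventually (hL.eventually_ge_atTop 0)).mono fun n hn => ?_
      have hn' : |rootDist ((x * √(L n)) ^ 2) - q| < 1 / ((m : ℝ) + 1) := hn.1
      have h3 : (x * √(L n)) ^ 2 = x ^ 2 * L n := by
        rw [mul_pow, Real.sq_sqrt hn.2]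
      rwa [h3] at hn'
    · refine Eventually.of_forall fun x h1 h2 => absurd ⟨h1, h2⟩ h
  have hall : ∀ᵐ x : ℝ, ∀ q : ℚ, ∀ m : ℕ, 0 ≤ (q : ℝ) → ENNReal.ofReal (q : ℝ) < D → 0 < x →
      ∃ᶠ n : ℕ in atTop, |rootDist (x ^ 2 * L n) - q| < 1 / ((m : ℝ) + 1) := by
    rw [ae_all_iff]
    intro q
    rw [ae_all_iff]
    exact hcount q
  filter_upwards [hall] with x hx hx0
  exact full_of (tendsto_mul_seq hL (by positivity)) fun q m h1 h2 => hx q m h1 h2 hx0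

theorem metric (L : ℕ → ℝ) (hL : Tendsto L atTop atTop)
    (hC : ∃ C : ℝ, ∀ n, √(L (n + 1)) ≤ √(L n) + C) :
    ∀ᵐ β : ℝ, 0 < β → Full (fun n : ℕ => β * L n) := by
  set B : Set ℝ := {x | 0 < x ∧ ¬ Full (fun n : ℕ => x ^ 2 * L n)} with hB
  have hB0 : volume B = 0 := by
    rw [measure_eq_zero_iff_ae_notMem]
    filter_upwards [metric_x L hL hC] with x hx hxB
    exact hxB.2 (hx hxB.1)
  have himg : volume ((fun x : ℝ => x ^ 2) '' B) = 0 :=
    addHaar_image_eq_zero_of_differentiableOn_of_addHaar_eq_zero volume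
      (fun x _ => (differentiableAt_pow 2).differentiableWithinAt) hB0
  rw [measure_eq_zero_iff_ae_notMem] at himg
  filter_upwards [himg] with β hβ hβ0
  by_contra hcon
  apply hβ
  refine ⟨√β, ⟨Real.sqrt_pos.mpr hβ0, ?_⟩, Real.sq_sqrt hβ0.le⟩
  rwa [Real.sq_sqrt hβ0.le]

theorem generic_of (c : ℝ) (f : ℕ → ℝ → ℝ) (hf : ∀ n, ContinuousOn (f n) (Ioi c))
    (ht : ∀ x, c < x → Tendsto (fun n => f n x) atTop atTop)
    (H : ∀ A B : ℝ, c < A → A < B → ∀ N : ℕ, ∃ T : ℝ, ∀ t, T ≤ t → ∃ n, N ≤ n ∧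
      ∃ x ∈ Ioo A B, f n x = t) :
    ∀ᶠ x : ℝ in residual ℝ, c < x → Full (fun n => f n x) := by
  have hcount : ∀ q : ℚ, ∀ m : ℕ, ∀ᶠ x : ℝ in residual ℝ, 0 ≤ (q : ℝ) →
      ENNReal.ofReal (q : ℝ) < D → c < x →
      ∃ᶠ n : ℕ in atTop, |rootDist (f n x) - q| < 1 / ((m : ℝ) + 1) := by
    intro q m
    by_cases h : 0 ≤ (q : ℝ) ∧ ENNReal.ofReal (q : ℝ) < D
    · obtain ⟨hq, hqD⟩ := h
      have h1 := sampling_category c f hf H _
        (late_intervals' hq hqD (ε := 1 / ((m : ℝ) + 1)) (by positivity))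
      filter_upwards [h1] with x hx _ _ hx0
      exact hx hx0
    · exact Eventually.of_forall fun x h1 h2 => absurd ⟨h1, h2⟩ h
  have hall : ∀ᶠ x : ℝ in residual ℝ, ∀ q : ℚ, ∀ m : ℕ, 0 ≤ (q : ℝ) →
      ENNReal.ofReal (q : ℝ) < D → c < x →
      ∃ᶠ n : ℕ in atTop, |rootDist (f n x) - q| < 1 / ((m : ℝ) + 1) := by
    rw [eventually_countable_forall]
    intro q
    rw [eventually_countable_forall]
    exact hcount q
  filter_upwards [hall] with x hx hx0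
  exact full_of (ht x hx0) fun q m h1 h2 => hx q m h1 h2 hx0

theorem generic_seq (L : ℕ → ℝ) (hL : Tendsto L atTop atTop)
    (hr : ∀ c : ℝ, 1 < c → ∀ᶠ n in atTop, L (n + 1) / L n < c) :
    ∀ᶠ β : ℝ in residual ℝ, 0 < β → Full (fun n : ℕ => β * L n) :=
  generic_of 0 (fun n β => β * L n)
    (fun n => (continuous_id.mul continuous_const).continuousOn)
    (fun x hx => tendsto_mul_seq hL hx)
    (fun A B hA hAB N => seq_reach L hL hr A B hA hAB N)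

theorem ratio_of_incr (L : ℕ → ℝ) (hL : Tendsto L atTop atTop)
    (hC : ∃ C : ℝ, ∀ n, √(L (n + 1)) ≤ √(L n) + C) :
    ∀ c : ℝ, 1 < c → ∀ᶠ n in atTop, L (n + 1) / L n < c := by
  obtain ⟨C, hC⟩ := hC
  intro c hc
  have hsq : Tendsto (fun n => √(L n)) atTop atTop := Real.tendsto_sqrt_atTop.comp hL
  have h1 : 1 < √c := by
    rw [show (1:ℝ) = √1 by simp]
    exact Real.sqrt_lt_sqrt (by norm_num) hc
  have h2 : Tendsto (fun n => √(L n) * (√c - 1)) atTop atTop :=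
    hsq.atTop_mul_const (by linarith)
  filter_upwards [h2.eventually_gt_atTop C, hL.eventually_gt_atTop 0,
    (tendsto_add_atTop_nat 1).eventually (hL.eventually_gt_atTop 0)] with n h3 h4 h5
  have h6 : √(L (n + 1)) < √(L n) * √c := by
    have := hC n
    nlinarith
  rw [← Real.sqrt_mul h4.le] at h6
  have h7 : L (n + 1) < L n * c := by
    have h8 : (0:ℝ) ≤ L (n + 1) := h5.le
    exact (Real.sqrt_lt_sqrt_iff h8).mp h6
  rw [div_lt_iff₀ h4]
  linarith [mul_comm c (L n)]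

theorem generic_exp : ∀ᶠ θ : ℝ in residual ℝ, 1 < θ → Full (fun n : ℕ => θ ^ n) :=
  generic_of 1 (fun n θ => θ ^ n)
    (fun n => (continuous_pow n).continuousOn)
    (fun x hx => tendsto_pow_atTop_atTop_of_one_lt hx)
    (fun A B hA hAB N => exp_reach A B hA hAB N)

theorem D_zero_of {u : ℕ → ℝ} (hu : Tendsto u atTop atTop) (hF : Full u) (hC : Close u) :
    D = 0 := by
  have h0 := (close_iff hu).mp hC
  by_contra hD
  have hpos : 0 < D := pos_iff_ne_zero.mpr hD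
  obtain ⟨c, hc1, hc2⟩ := exists_between hpos
  have hctop : c ≠ ⊤ := (hc2.trans_le le_top).ne
  have hc0 : 0 < c.toReal := ENNReal.toReal_pos hc1.ne' hctop
  have h1 := (hF c.toReal).mpr ⟨hc0.le, by rw [ENNReal.ofReal_toReal hctop]; exact hc2.le⟩
  have h2 : ClusterPt c.toReal (𝓝 (0:ℝ)) := ClusterPt.mono h1 h0
  have h3 : (𝓝 c.toReal ⊓ 𝓝 (0:ℝ)).NeBot := h2
  have := eq_of_nhds_neBot h3
  exact hc0.ne' this

theorem close_of_q1 (h : Tendsto d atTop (𝓝 0)) {u : ℕ → ℝ} (hu : Tendsto u atTop atTop) :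
    Close u :=
  (close_iff hu).mpr (tendsto_of_D_zero (q1_iff.mp h) hu)

theorem not_meagre_of {c : ℝ} {S : Set ℝ} (h : Ioi c ⊆ S) : ¬ IsMeagre S := by
  intro hS
  have h1 : Dense Sᶜ := dense_of_mem_residual hS
  obtain ⟨y, hy1, hy2⟩ := h1.inter_open_nonempty (Ioi c) isOpen_Ioi ⟨c + 1, by simp⟩
  exact hy2 (h hy1)

theorem exists_of_not_meagre {S : Set ℝ} (hS : ¬ IsMeagre S) {p : ℝ → Prop}
    (hp : ∀ᶠ x in residual ℝ, p x) : ∃ x ∈ S, p x := by
  by_contra hcon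
  push Not at hcon
  apply hS
  show Sᶜ ∈ residual ℝ
  filter_upwards [hp] with x hx hxS
  exact hcon x hxS hx

theorem exists_of_ne_zero {S : Set ℝ} (hS : volume S ≠ 0) {p : ℝ → Prop}
    (hp : ∀ᵐ x : ℝ, p x) : ∃ x ∈ S, p x := by
  by_contra hcon
  push Not at hcon
  apply hS
  rw [measure_eq_zero_iff_ae_notMem]
  filter_upwards [hp] with x hx hxS
  exact hcon x hxS hx

end Pool.Agent.Helper13.SqGap
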