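import Pool.Agent.Helper13.SqGap.Defs

open Filter Topology Set

namespace Pool.Agent.Helper13.SqGap

/-- the `n`-th prime, counted from `0` -/
noncomputable abbrev P (n : ℕ) : ℕ := Nat.nth Nat.Prime n

theorem P_strictMono : StrictMono P := Nat.nth_strictMono Nat.infinite_setOfPred_prime

theorem P_prime (n : ℕ) : (P n).Prime := Nat.prime_nth_prime n

theorem exists_P {q : ℕ} (hq : q.Prime) : ∃ j, P j = q :=
  ⟨Nat.count Nat.Prime q, Nat.nth_count hq⟩

theorem nextPrime_eq {k : ℕ} {y : ℝ} (h1 : (P k : ℝ) < y) (h2 : y ≤ P (k + 1)) :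
    nextPrime y = P (k + 1) := by
  apply le_antisymm
  · exact Nat.sInf_le ⟨P_prime _, h2⟩
  · have hne : {p : ℕ | p.Prime ∧ y ≤ (p : ℝ)}.Nonempty := ⟨P (k + 1), P_prime (k + 1), h2⟩
    apply le_csInf hne
    rintro q ⟨hq, hyq⟩
    obtain ⟨j, rfl⟩ := exists_P hq
    have h3 : P k < P j := by
      have : (P k : ℝ) < P j := h1.trans_le hyq
      exact_mod_cast this
    exact P_strictMono.monotone (P_strictMono.lt_iff_lt.mp h3)

theorem exists_index {K : ℕ} {y : ℝ} (h : (P K : ℝ) < y) :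
    ∃ k, K ≤ k ∧ (P k : ℝ) < y ∧ y ≤ P (k + 1) := by
  classical
  have hex : ∃ k, y ≤ (P k : ℝ) := by
    obtain ⟨m, hm⟩ := exists_nat_ge y
    exact ⟨m, hm.trans (by exact_mod_cast P_strictMono.le_apply)⟩
  have h0 : y ≤ (P (Nat.find hex) : ℝ) := Nat.find_spec hex
  have hK : K < Nat.find hex := by
    by_contra hcon
    have h3 : (P (Nat.find hex) : ℝ) ≤ P K := by
      exact_mod_cast P_strictMono.monotone (not_lt.mp hcon)
    linarith
  refine ⟨Nat.find hex - 1, by omega, ?_, ?_⟩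
  · have := Nat.find_min hex (m := Nat.find hex - 1) (by omega)
    exact not_le.mp this
  · rw [show Nat.find hex - 1 + 1 = Nat.find hex by omega]
    exact h0

theorem d_nonneg (n : ℕ) : 0 ≤ d n := by
  unfold d
  have : (P n : ℝ) ≤ P (n + 1) := by exact_mod_cast P_strictMono.monotone (Nat.le_succ n)
  have := Real.sqrt_le_sqrt this
  linarith

/-- `y ≤ nextPrime y` -/
theorem le_nextPrime (y : ℝ) : y ≤ nextPrime y := by
  have hne : {p : ℕ | p.Prime ∧ y ≤ (p : ℝ)}.Nonempty := by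
    obtain ⟨m, hm⟩ := exists_nat_ge y
    obtain ⟨q, hq1, hq2⟩ := Nat.exists_infinite_primes m
    exact ⟨q, hq2, hm.trans (by exact_mod_cast hq1)⟩
  exact (Nat.sInf_mem hne).2

theorem rootDist_nonneg (y : ℝ) : 0 ≤ rootDist y := by
  unfold rootDist
  have := Real.sqrt_le_sqrt (le_nextPrime y)
  linarith

theorem rootDist_lt {K : ℕ} {y : ℝ} (h : (P K : ℝ) < y) :
    ∃ k, K ≤ k ∧ rootDist y < d k := by
  obtain ⟨k, hk, h1, h2⟩ := exists_index h
  refine ⟨k, hk, ?_⟩
  unfold rootDist d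
  rw [nextPrime_eq h1 h2]
  have h3 : √(P k : ℝ) < √y := Real.sqrt_lt_sqrt (by positivity) h1
  have h4 : (Nat.nth Nat.Prime k : ℝ) = P k := rfl
  rw [h4]
  linarith

/-- if `D < c` then `rootDist y < c` for all large `y` -/
theorem rootDist_lt_of_D {c : ℝ} (hc : D < ENNReal.ofReal c) :
    ∃ Y : ℝ, ∀ y, Y < y → rootDist y < c := by
  have h1 : ∀ᶠ n in atTop, ENNReal.ofReal (d n) < ENNReal.ofReal c :=
    eventually_lt_of_limsup_lt hc
  obtain ⟨K, hK⟩ := eventually_atTop.mp h1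
  refine ⟨P K, fun y hy => ?_⟩
  obtain ⟨k, hk, hlt⟩ := rootDist_lt hy
  have h2 := hK k hk
  have h3 : d k < c := (ENNReal.ofReal_lt_ofReal_iff_of_nonneg (d_nonneg k)).mp h2
  linarith

/-- upper half, for every sequence tending to infinity -/
theorem upper {u : ℕ → ℝ} (hu : Tendsto u atTop atTop) {g : ℝ}
    (hg : MapClusterPt g atTop (fun n => rootDist (u n))) : 0 ≤ g ∧ ENNReal.ofReal g ≤ D := by
  have h0 : 0 ≤ g := by
    by_contra hcon
    push Not at hcon
    rw [mapClusterPt_iff_frequently] at hg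
    obtain ⟨n, hn⟩ := (hg (Iio 0) (Iio_mem_nhds hcon)).exists
    exact absurd (rootDist_nonneg (u n)) (not_le.mpr hn)
  refine ⟨h0, ?_⟩
  by_contra hcon
  push Not at hcon
  obtain ⟨c', hc1, hc2⟩ := exists_between hcon
  have hc'top : c' ≠ ⊤ := (hc2.trans_le le_top).ne
  set c : ℝ := c'.toReal with hc
  have hc'eq : ENNReal.ofReal c = c' := ENNReal.ofReal_toReal hc'top
  rw [← hc'eq] at hc1 hc2
  have hcg : c < g := (ENNReal.ofReal_lt_ofReal_iff_of_nonneg ENNReal.toReal_nonneg).mp hc2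
  obtain ⟨Y, hY⟩ := rootDist_lt_of_D hc1
  rw [mapClusterPt_iff_frequently] at hg
  obtain ⟨n, hn1, hn2⟩ :=
    ((hg (Ioi c) (Ioi_mem_nhds hcg)).and_eventually (hu.eventually_gt_atTop Y)).exists
  have := hY _ hn2
  exact absurd hn1 (not_lt.mpr this.le)

/-- if `D = 0` everything tends to `0` -/
theorem tendsto_of_D_zero (hD : D = 0) {u : ℕ → ℝ} (hu : Tendsto u atTop atTop) :
    Tendsto (fun n => rootDist (u n)) atTop (𝓝 0) := by
  rw [Metric.tendsto_nhds]
  intro ε hε
  have hc : D < ENNReal.ofReal ε := by rw [hD]; exact ENNReal.ofReal_pos.mpr hε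
  obtain ⟨Y, hY⟩ := rootDist_lt_of_D hc
  filter_upwards [hu.eventually_gt_atTop Y] with n hn
  rw [Real.dist_eq, sub_zero, abs_of_nonneg (rootDist_nonneg _)]
  exact hY _ hn

/-- The set of `t > 0` such that the distance is within `ε` of `q` at `t ^ 2` contains
arbitrarily late intervals of a fixed length. -/
theorem late_intervals {q ε : ℝ} (hq : 0 ≤ q) (hqD : ENNReal.ofReal q < D) (hε : 0 < ε) :
    ∃ δ : ℝ, 0 < δ ∧ ∀ T : ℝ, ∃ a, T ≤ a ∧ 0 < a ∧
      Ioo a (a + δ) ⊆ {t | |rootDist (t ^ 2) - q| < ε} := by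
  obtain ⟨c', hc1, hc2⟩ := exists_between hqD
  have hc'top : c' ≠ ⊤ := (hc2.trans_le le_top).ne
  set c : ℝ := c'.toReal with hc
  have hc'eq : ENNReal.ofReal c = c' := ENNReal.ofReal_toReal hc'top
  rw [← hc'eq] at hc1 hc2
  have hqc : q < c := (ENNReal.ofReal_lt_ofReal_iff_of_nonneg hq).mp hc1
  refine ⟨min (c - q) ε, lt_min (by linarith) hε, fun T => ?_⟩
  have hfr : ∃ᶠ n in atTop, ENNReal.ofReal c < ENNReal.ofReal (d n) :=
    frequently_lt_of_lt_limsup (by isBoundedDefault) hc2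
  -- late index
  obtain ⟨m, hm⟩ := exists_nat_ge ((max T 0 + 1) ^ 2)
  obtain ⟨k, hk1, hk2⟩ := (hfr.and_eventually (eventually_ge_atTop m)).exists
  have hcd : c < d k := (ENNReal.ofReal_lt_ofReal_iff_of_nonneg ENNReal.toReal_nonneg).mp hk1
  set δ := min (c - q) ε with hδ
  have hδ1 : δ ≤ c - q := min_le_left _ _
  have hδ2 : δ ≤ ε := min_le_right _ _
  have hδ0 : 0 < δ := lt_min (by linarith) hε
  have hPk : max T 0 + 1 ≤ √(P k : ℝ) := by
    apply Real.le_sqrt_of_sq_le
    refine hm.trans ?_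
    have : m ≤ P k := hk2.trans P_strictMono.le_apply
    exact_mod_cast this
  have hT0 : 0 ≤ max T 0 := le_max_right _ _
  have hT1 : T ≤ max T 0 := le_max_left _ _
  have hdk : d k = √(P (k + 1) : ℝ) - √(P k : ℝ) := rfl
  refine ⟨√(P (k + 1) : ℝ) - q - δ, by linarith, by linarith, ?_⟩
  rintro t ⟨ht1, ht2⟩
  have ht0 : √(P k : ℝ) < t := by linarith
  have htpos : 0 < t := by linarith
  have ht3 : t < √(P (k + 1) : ℝ) - q := by linarith
  have h1 : (P k : ℝ) < t ^ 2 := by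
    have := Real.lt_sq_of_sqrt_lt ht0
    exact this
  have h2 : t ^ 2 ≤ P (k + 1) := by
    have h3 : t ≤ √(P (k + 1) : ℝ) := by linarith
    calc t ^ 2 ≤ (√(P (k + 1) : ℝ)) ^ 2 := pow_le_pow_left₀ htpos.le h3 2
      _ = P (k + 1) := Real.sq_sqrt (by positivity)
  show |rootDist (t ^ 2) - q| < ε
  unfold rootDist
  rw [nextPrime_eq h1 h2, Real.sqrt_sq htpos.le, abs_lt]
  constructor <;> linarith

/-- reduction of `Full` to countably many frequency statements -/
theorem full_of {u : ℕ → ℝ} (hu : Tendsto u atTop atTop)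
    (h : ∀ q : ℚ, ∀ m : ℕ, 0 ≤ (q : ℝ) → ENNReal.ofReal (q : ℝ) < D →
      ∃ᶠ n in atTop, |rootDist (u n) - q| < 1 / ((m : ℝ) + 1)) : Full u := by
  intro g
  refine ⟨upper hu, ?_⟩
  rintro ⟨hg0, hgD⟩
  rcases eq_or_ne D 0 with hD | hD
  · have : g = 0 := by
      rw [hD] at hgD
      have := ENNReal.ofReal_eq_zero.mp (le_zero_iff.mp hgD)
      linarith
    rw [this]
    exact (tendsto_of_D_zero hD hu).mapClusterPt
  · rw [mapClusterPt_iff_frequently]
    intro W hW
    obtain ⟨ε, hε, hball⟩ := Metric.mem_nhds_iff.mp hW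
    -- rational q in [0, D) close to g
    have hq : ∃ q : ℚ, 0 ≤ (q : ℝ) ∧ ENNReal.ofReal (q : ℝ) < D ∧ |(q : ℝ) - g| < ε / 2 := by
      rcases eq_or_lt_of_le hg0 with h0 | h0
      · refine ⟨0, by simp, ?_, ?_⟩
        · simpa using pos_iff_ne_zero.mpr hD
        · rw [← h0]; simpa using half_pos hε
      · obtain ⟨q, hq1, hq2⟩ := exists_rat_btwn (max_lt h0 (by linarith : g - ε / 2 < g))
        have hq0 : (0:ℝ) < q := (le_max_left _ _).trans_lt hq1
        have hq3 : g - ε / 2 < q := (le_max_right _ _).trans_lt hq1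
        refine ⟨q, hq0.le, ?_, ?_⟩
        · exact lt_of_lt_of_le ((ENNReal.ofReal_lt_ofReal_iff h0).mpr hq2) hgD
        · rw [abs_lt]; constructor <;> linarith
    obtain ⟨q, hq0, hqD, hqg⟩ := hq
    obtain ⟨m, hm⟩ := exists_nat_one_div_lt (half_pos hε)
    refine (h q m hq0 hqD).mono fun n hn => hball ?_
    rw [Metric.mem_ball, Real.dist_eq]
    calc |rootDist (u n) - g| = |(rootDist (u n) - q) + (q - g)| := by ring_nf
      _ ≤ |rootDist (u n) - q| + |(q : ℝ) - g| := abs_add_le _ _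
      _ < ε := by linarith

/-- `Close` in terms of `rootDist`. -/
theorem close_iff {u : ℕ → ℝ} (hu : Tendsto u atTop atTop) :
    Close u ↔ Tendsto (fun n => rootDist (u n)) atTop (𝓝 0) := by
  have hpos : ∀ᶠ n in atTop, 0 < u n := hu.eventually_gt_atTop 0
  unfold Close
  rw [Asymptotics.isLittleO_iff_tendsto']
  swap
  · filter_upwards [hpos] with n hn h0
    exact absurd h0 (Real.sqrt_pos.mpr hn).ne'
  -- (np - y)/√y = ρ (2 + ρ/√y)
  have hid : ∀ y : ℝ, 0 < y → ((nextPrime y : ℝ) - y) / √y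
      = rootDist y * (2 + rootDist y / √y) := by
    intro y hy
    have h1 : 0 < √y := Real.sqrt_pos.mpr hy
    have h2 : (nextPrime y : ℝ) - y = (√(nextPrime y : ℝ)) ^ 2 - (√y) ^ 2 := by
      rw [Real.sq_sqrt (by positivity), Real.sq_sqrt hy.le]
    rw [h2]
    unfold rootDist
    field_simp
    ring
  have hsq : Tendsto (fun n => √(u n)) atTop atTop := Real.tendsto_sqrt_atTop.comp hu
  constructor
  · intro h
    refine squeeze_zero' (Eventually.of_forall fun n => rootDist_nonneg _) ?_ h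
    filter_upwards [hpos] with n hn
    rw [hid _ hn]
    have h1 := rootDist_nonneg (u n)
    have h2 : 0 ≤ rootDist (u n) / √(u n) := by positivity
    nlinarith
  · intro h
    have h1 : Tendsto (fun n => rootDist (u n) / √(u n)) atTop (𝓝 0) := h.div_atTop hsq
    have h2 : Tendsto (fun n => rootDist (u n) * (2 + rootDist (u n) / √(u n))) atTop
        (𝓝 (0 * (2 + 0))) := h.mul (tendsto_const_nhds.add h1)
    rw [zero_mul] at h2
    refine h2.congr' ?_
    filter_upwards [hpos] with n hn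
    exact (hid _ hn).symm

/-- the question itself: `d n → 0` iff `D = 0` -/
theorem q1_iff : Tendsto d atTop (𝓝 0) ↔ D = 0 := by
  constructor
  · intro h
    have h1 : Tendsto (fun n => ENNReal.ofReal (d n)) atTop (𝓝 (ENNReal.ofReal 0)) :=
      (ENNReal.continuous_ofReal.tendsto 0).comp h
    rw [ENNReal.ofReal_zero] at h1
    exact h1.limsup_eq
  · intro h
    rw [Metric.tendsto_atTop]
    intro ε hε
    have h1 : ∀ᶠ n in atTop, ENNReal.ofReal (d n) < ENNReal.ofReal ε :=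
      eventually_lt_of_limsup_lt (by
        have : D < ENNReal.ofReal ε := by rw [h]; exact ENNReal.ofReal_pos.mpr hε
        exact this)
    obtain ⟨N, hN⟩ := eventually_atTop.mp h1
    refine ⟨N, fun n hn => ?_⟩
    rw [Real.dist_eq, sub_zero, abs_of_nonneg (d_nonneg n)]
    exact (ENNReal.ofReal_lt_ofReal_iff_of_nonneg (d_nonneg n)).mp (hN n hn)

end Pool.Agent.Helper13.SqGap
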